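import Mathlib

namespace X193.CMT

variable {V : Type}

/-- `(k, q)`-colourings of `G`. -/
def IsCol (G : SimpleGraph V) (k q : ℕ) (f : V → ℤ) : Prop :=
  (∀ v, 0 ≤ f v ∧ f v < k) ∧
    ∀ u v, G.Adj u v → (q : ℤ) ≤ |f u - f v| ∧ |f u - f v| ≤ (k : ℤ) - q

/-- A move alters the value of a `(k, q)`-colouring at a single vertex. -/
def Move (G : SimpleGraph V) (k q : ℕ) (f g : V → ℤ) : Prop :=
  IsCol G k q f ∧ IsCol G k q g ∧ ∃ v, ∀ u, u ≠ v → f u = g u

/-- `G` is `(k, q)`-mixing. -/
def Mixing (G : SimpleGraph V) (k q : ℕ) : Prop :=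
  ∀ f g, IsCol G k q f → IsCol G k q g → Relation.ReflTransGen (Move G k q) f g

/-- The same order on the ends of every edge. -/
def SameT (G : SimpleGraph V) (f g : V → ℤ) : Prop :=
  ∀ u v, G.Adj u v → (f u < f v ↔ g u < g v)

theorem SameT.symm {G : SimpleGraph V} {f g : V → ℤ} (h : SameT G f g) : SameT G g f :=
  fun u v huv => (h u v huv).symm

theorem SameT.trans {G : SimpleGraph V} {f g h : V → ℤ} (h1 : SameT G f g) (h2 : SameT G g h) :
    SameT G f h := fun u v huv => (h1 u v huv).trans (h2 u v huv)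

theorem Move.symm {G : SimpleGraph V} {k q : ℕ} {f g : V → ℤ} (h : Move G k q f g) :
    Move G k q g f := by
  obtain ⟨h1, h2, v, hv⟩ := h
  exact ⟨h2, h1, v, fun u hu => (hv u hu).symm⟩

theorem conn_symm {G : SimpleGraph V} {k q : ℕ} {f g : V → ℤ}
    (h : Relation.ReflTransGen (Move G k q) f g) : Relation.ReflTransGen (Move G k q) g f := by
  induction h with
  | refl => exact Relation.ReflTransGen.refl
  | tail _ h2 ih => exact Relation.ReflTransGen.head h2.symm ih

theorem IsCol.lt {G : SimpleGraph V} {k q : ℕ} {f : V → ℤ} (hf : IsCol G k q f) {u v : V}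
    (huv : G.Adj u v) (hlt : f u < f v) : (q : ℤ) ≤ f v - f u ∧ f v - f u ≤ (k : ℤ) - q := by
  have h := hf.2 u v huv
  rw [abs_of_neg (by linarith)] at h
  constructor <;> linarith [h.1, h.2]

theorem IsCol.ne {G : SimpleGraph V} {k q : ℕ} (hq : 0 < q) {f : V → ℤ} (hf : IsCol G k q f)
    {u v : V} (huv : G.Adj u v) : f u ≠ f v := by
  intro h
  have h1 := (hf.2 u v huv).1
  rw [h, sub_self, abs_zero] at h1
  omega

/-- tight predecessors: they prevent the value at `v` from being decreased -/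
def Pred (G : SimpleGraph V) (k q : ℕ) (f : V → ℤ) (v u : V) : Prop :=
  G.Adj v u ∧ ((f u < f v ∧ f v = f u + q) ∨ (f v < f u ∧ f u = f v + ((k : ℤ) - q)))

def Blocked (G : SimpleGraph V) (k q : ℕ) (f : V → ℤ) : Prop :=
  ∀ v, f v ≠ 0 → ∃ u, Pred G k q f v u

theorem step_down [DecidableEq V] {G : SimpleGraph V} {k q : ℕ} (hq : 0 < q) {f : V → ℤ}
    (hf : IsCol G k q f) {v : V} (hv : f v ≠ 0) (hb : ∀ u, ¬ Pred G k q f v u) :
    IsCol G k q (Function.update f v (f v - 1)) ∧ SameT G f (Function.update f v (f v - 1)) := by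
  have key : ∀ u, G.Adj v u →
      (f u < f v ∧ (q : ℤ) + 1 ≤ f v - f u ∧ f v - f u ≤ (k : ℤ) - q) ∨
      (f v < f u ∧ (q : ℤ) ≤ f u - f v ∧ f u - f v + 1 ≤ (k : ℤ) - q) := by
    intro u hu
    rcases lt_trichotomy (f u) (f v) with h | h | h
    · left
      have h1 := hf.lt hu.symm h
      have h2 : f v ≠ f u + q := fun h' => hb u ⟨hu, Or.inl ⟨h, h'⟩⟩
      refine ⟨h, ?_, h1.2⟩
      have := h1.1
      omega
    · exact absurd h.symm (hf.ne hq hu)
    · right
      have h1 := hf.lt hu h
      have h2 : f u ≠ f v + ((k : ℤ) - q) := fun h' => hb u ⟨hu, Or.inr ⟨h, h'⟩⟩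
      refine ⟨h, h1.1, ?_⟩
      have := h1.2
      omega
  have hne : ∀ u, G.Adj v u → u ≠ v := fun u hu => hu.ne'
  refine ⟨⟨?_, ?_⟩, ?_⟩
  · intro u
    by_cases hu : u = v
    · subst hu
      rw [Function.update_self]
      have := hf.1 u
      omega
    · rw [Function.update_of_ne hu]
      exact hf.1 u
  · intro a b hab
    by_cases ha : a = v
    · subst ha
      rw [Function.update_self, Function.update_of_ne (hne b hab)]
      rcases key b hab with ⟨h1, h2, h3⟩ | ⟨h1, h2, h3⟩
      · rw [abs_of_nonneg (by omega)]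
        omega
      · rw [abs_of_neg (by omega)]
        omega
    · by_cases hb' : b = v
      · subst hb'
        rw [Function.update_self, Function.update_of_ne ha]
        rcases key a hab.symm with ⟨h1, h2, h3⟩ | ⟨h1, h2, h3⟩
        · rw [abs_of_nonpos (by omega)]
          omega
        · rw [abs_of_pos (by omega)]
          omega
      · rw [Function.update_of_ne ha, Function.update_of_ne hb']
        exact hf.2 a b hab
  · intro a b hab
    by_cases ha : a = v
    · subst ha
      rw [Function.update_self, Function.update_of_ne (hne b hab)]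
      rcases key b hab with ⟨h1, h2, h3⟩ | ⟨h1, h2, h3⟩ <;> omega
    · by_cases hb' : b = v
      · subst hb'
        rw [Function.update_self, Function.update_of_ne ha]
        rcases key a hab.symm with ⟨h1, h2, h3⟩ | ⟨h1, h2, h3⟩ <;> omega
      · rw [Function.update_of_ne ha, Function.update_of_ne hb']

theorem exists_blocked [Fintype V] {G : SimpleGraph V} {k q : ℕ} (hq : 0 < q) :
    ∀ (s : ℕ) (f : V → ℤ), IsCol G k q f → ∑ v, f v = s →
      ∃ g, Relation.ReflTransGen (Move G k q) f g ∧ SameT G f g ∧ IsCol G k q g ∧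
        Blocked G k q g := by
  classical
  intro s
  induction s with
  | zero =>
    intro f hf hs
    have h0 : ∀ v, f v = 0 := by
      have := (Finset.sum_eq_zero_iff_of_nonneg (fun v _ => (hf.1 v).1)).mp
        (by exact_mod_cast hs)
      intro v
      exact this v (Finset.mem_univ v)
    exact ⟨f, Relation.ReflTransGen.refl, fun _ _ _ => Iff.rfl, hf, fun v hv => absurd (h0 v) hv⟩
  | succ s ih =>
    intro f hf hs
    by_cases hB : Blocked G k q f
    · exact ⟨f, Relation.ReflTransGen.refl, fun _ _ _ => Iff.rfl, hf, hB⟩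
    · unfold Blocked at hB
      push Not at hB
      obtain ⟨v, hv, hb⟩ := hB
      obtain ⟨h1, h2⟩ := step_down hq hf hv hb
      have hsum : ∑ u, Function.update f v (f v - 1) u = s := by
        rw [Finset.sum_update_of_mem (Finset.mem_univ v)]
        have := Finset.add_sum_erase Finset.univ f (Finset.mem_univ v)
        rw [hs] at this
        rw [Finset.sdiff_singleton_eq_erase]
        push_cast at this
        linarith
      obtain ⟨g, g1, g2, g3, g4⟩ := ih _ h1 hsum
      refine ⟨g, ?_, h2.trans g2, g3, g4⟩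
      refine Relation.ReflTransGen.head ⟨hf, h1, v, ?_⟩ g1
      intro u hu
      rw [Function.update_of_ne hu]

theorem exists_blocked' [Fintype V] {G : SimpleGraph V} {k q : ℕ} (hq : 0 < q) {f : V → ℤ}
    (hf : IsCol G k q f) :
    ∃ g, Relation.ReflTransGen (Move G k q) f g ∧ SameT G f g ∧ IsCol G k q g ∧
        Blocked G k q g := by
  have h0 : 0 ≤ ∑ v, f v := Finset.sum_nonneg (fun v _ => (hf.1 v).1)
  obtain ⟨s, hs⟩ := Int.eq_ofNat_of_zero_le h0
  exact exists_blocked hq s f hf hs

/-- no small linear form vanishes at `(q, k)` -/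
def NC (N : ℤ) (k q : ℕ) : Prop :=
  ∀ a b : ℤ, |a| ≤ N → |b| ≤ N → a * q + b * k = 0 → a = 0 ∧ b = 0

/-- small linear forms which are nonnegative at `(q, k)` are nonnegative at `(q', k')` -/
def Agree (N : ℤ) (k q k' q' : ℕ) : Prop :=
  ∀ a b : ℤ, |a| ≤ N → |b| ≤ N → 0 ≤ a * q + b * k → 0 ≤ a * q' + b * k'

theorem iter {G : SimpleGraph V} {k q : ℕ} {f : V → ℤ} (p : V → V)
    (hp : ∀ v, f v ≠ 0 → Pred G k q f v (p v)) (v : V) (i : ℕ)
    (h : ∀ j < i, f (p^[j] v) ≠ 0) :
    ∃ α β : ℕ, α + β = i ∧ f (p^[i] v) = f v - α * q + β * ((k : ℤ) - q) := by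
  induction i with
  | zero => exact ⟨0, 0, rfl, by simp⟩
  | succ i ih =>
    obtain ⟨α, β, hαβ, hf⟩ := ih (fun j hj => h j (by omega))
    have h1 := hp _ (h i (by omega))
    rw [← Function.iterate_succ_apply' p i v] at h1
    rcases h1.2 with ⟨_, h2⟩ | ⟨_, h2⟩
    · refine ⟨α + 1, β, by omega, ?_⟩
      push_cast
      linarith
    · refine ⟨α, β + 1, by omega, ?_⟩
      push_cast
      linarith

theorem nocycle [Fintype V] {G : SimpleGraph V} {k q : ℕ} {f : V → ℤ} (p : V → V)
    (hp : ∀ v, f v ≠ 0 → Pred G k q f v (p v)) {N : ℤ} (hN : (Fintype.card V : ℤ) ≤ N)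
    (hNC : NC N k q) (v : V) (h : ∀ i ≤ Fintype.card V, f (p^[i] v) ≠ 0) : False := by
  obtain ⟨i, j, hij, he⟩ := Fintype.exists_ne_map_eq_of_card_lt
    (fun i : Fin (Fintype.card V + 1) => p^[i.1] v) (by simp)
  have main : ∀ i j : ℕ, i < j → j ≤ Fintype.card V → p^[i] v = p^[j] v → False := by
    intro i j hij hj he
    have e1 : p^[j - i] (p^[i] v) = p^[j] v := by
      rw [← Function.iterate_add_apply]
      congr 2
      omega
    obtain ⟨α, β, hαβ, hf⟩ := iter p hp (p^[i] v) (j - i) (by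
      intro l hl
      rw [← Function.iterate_add_apply]
      exact h _ (by omega))
    rw [e1, ← he] at hf
    have h1 : ((α : ℤ) + β) * q + (-(β : ℤ)) * k = 0 := by linarith
    have h2 := hNC _ _ (by
      rw [abs_of_nonneg (by positivity)]
      have : (α : ℤ) + β = ((j - i : ℕ) : ℤ) := by exact_mod_cast hαβ
      rw [this]
      have : ((j - i : ℕ) : ℤ) ≤ Fintype.card V := by
        exact_mod_cast (by omega : j - i ≤ Fintype.card V)
      linarith) (by
      rw [abs_neg, abs_of_nonneg (by positivity)]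
      have : (β : ℤ) ≤ Fintype.card V := by
        exact_mod_cast (by omega : β ≤ Fintype.card V)
      linarith) h1
    have h3 := h2.1
    omega
  have hne : i.1 ≠ j.1 := fun h' => hij (Fin.ext h')
  rcases Nat.lt_or_gt_of_ne hne with h' | h'
  · exact main i.1 j.1 h' (by omega) he
  · exact main j.1 i.1 h' (by omega) he.symm

theorem exists_pred {G : SimpleGraph V} {k q : ℕ} {f : V → ℤ} (hB : Blocked G k q f) :
    ∃ p : V → V, ∀ v, f v ≠ 0 → Pred G k q f v (p v) := by
  classical
  have : ∀ v, ∃ u, f v ≠ 0 → Pred G k q f v u := by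
    intro v
    by_cases hv : f v = 0
    · exact ⟨v, fun h => absurd hv h⟩
    · obtain ⟨u, hu⟩ := hB v hv
      exact ⟨u, fun _ => hu⟩
  choose p hp using this
  exact ⟨p, hp⟩

theorem least [Fintype V] {G : SimpleGraph V} {k q : ℕ} {f g : V → ℤ}
    (hf : IsCol G k q f) (hB : Blocked G k q f) (hg : IsCol G k q g) (hT : SameT G f g)
    {N : ℤ} (hN : (Fintype.card V : ℤ) ≤ N) (hNC : NC N k q) : ∀ v, f v ≤ g v := by
  by_contra hcon
  push Not at hcon
  obtain ⟨v1, hv1⟩ := hcon
  obtain ⟨v0, _, hmax⟩ := Finset.exists_max_image Finset.univ (fun v => f v - g v)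
    ⟨v1, Finset.mem_univ v1⟩
  obtain ⟨p, hp⟩ := exists_pred hB
  have hD : 0 < f v0 - g v0 := by
    have := hmax v1 (Finset.mem_univ _)
    linarith
  have hall : ∀ i, f (p^[i] v0) - g (p^[i] v0) = f v0 - g v0 := by
    intro i
    induction i with
    | zero => rfl
    | succ i ih =>
      have hne : f (p^[i] v0) ≠ 0 := by
        have := (hg.1 (p^[i] v0)).1
        omega
      have h1 := hp _ hne
      rw [← Function.iterate_succ_apply' p i v0, Nat.succ_eq_add_one] at h1
      have h2 := hmax (p^[i + 1] v0) (Finset.mem_univ _)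
      obtain ⟨hadj, h3 | h3⟩ := h1
      · obtain ⟨h4, h5⟩ := h3
        have h6 := hg.lt hadj.symm ((hT _ _ hadj.symm).mp h4)
        omega
      · obtain ⟨h4, h5⟩ := h3
        have h6 := hg.lt hadj ((hT _ _ hadj).mp h4)
        omega
  refine nocycle p hp hN hNC v0 ?_
  intro i _
  have h1 := hall i
  have h2 := (hg.1 (p^[i] v0)).1
  omega

theorem sameT_conn [Fintype V] {G : SimpleGraph V} {k q : ℕ} (hq : 0 < q) {f g : V → ℤ}
    (hf : IsCol G k q f) (hg : IsCol G k q g) (hT : SameT G f g)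
    {N : ℤ} (hN : (Fintype.card V : ℤ) ≤ N) (hNC : NC N k q) :
    Relation.ReflTransGen (Move G k q) f g := by
  obtain ⟨f1, a1, a2, a3, a4⟩ := exists_blocked' hq hf
  obtain ⟨g1, b1, b2, b3, b4⟩ := exists_blocked' hq hg
  have h1 : SameT G f1 g1 := a2.symm.trans (hT.trans b2)
  have h2 := least a3 a4 b3 h1 hN hNC
  have h3 := least b3 b4 a3 h1.symm hN hNC
  have h4 : f1 = g1 := funext fun v => le_antisymm (h2 v) (h3 v)
  subst h4
  exact a1.trans (conn_symm b1)

theorem normal_form [Fintype V] {G : SimpleGraph V} {k q : ℕ} {f : V → ℤ}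
    (hB : Blocked G k q f) {N : ℤ} (hN : (Fintype.card V : ℤ) ≤ N) (hNC : NC N k q) (v : V) :
    ∃ A B : ℤ, |A| ≤ Fintype.card V ∧ |B| ≤ Fintype.card V ∧ f v = A * q + B * k := by
  classical
  obtain ⟨p, hp⟩ := exists_pred hB
  have hex : ∃ i, i ≤ Fintype.card V ∧ f (p^[i] v) = 0 := by
    by_contra hcon
    push Not at hcon
    exact nocycle p hp hN hNC v hcon
  have h1 := Nat.find_spec hex
  obtain ⟨α, β, hαβ, hf⟩ := iter p hp v (Nat.find hex) (by
    intro j hj h0
    have := Nat.find_min hex hj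
    exact this ⟨by omega, h0⟩)
  rw [h1.2] at hf
  refine ⟨(α : ℤ) + β, -(β : ℤ), ?_, ?_, by linarith⟩
  · rw [abs_of_nonneg (by positivity)]
    have : α + β ≤ Fintype.card V := by omega
    exact_mod_cast this
  · rw [abs_neg, abs_of_nonneg (by positivity)]
    have : β ≤ Fintype.card V := by omega
    exact_mod_cast this

theorem transfer [Fintype V] {G : SimpleGraph V} {k q k' q' : ℕ} (hq : 0 < q) (hq' : 0 < q')
    {N : ℤ} (hN : 2 * (Fintype.card V : ℤ) + 1 ≤ N) (h1 : NC N k q) (h2 : NC N k' q')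
    (hA : Agree N k q k' q') {f : V → ℤ} (hf : IsCol G k q f) :
    ∃ f' : V → ℤ, IsCol G k' q' f' ∧ SameT G f f' := by
  obtain ⟨g, _, g2, g3, g4⟩ := exists_blocked' hq hf
  have hc0 : (0 : ℤ) ≤ Fintype.card V := by positivity
  have hN' : (Fintype.card V : ℤ) ≤ N := by linarith
  choose A B hAb hBb hAB using normal_form g4 hN' h1
  have hg'' : ∀ a b x : ℤ, |a| ≤ N → |b| ≤ N → x = a * q + b * k → 0 ≤ x →
      0 ≤ a * q' + b * k' := by
    intro a b x ha hb hx h0
    rw [hx] at h0
    exact hA a b ha hb h0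
  have key : ∀ u v, G.Adj u v → g u < g v →
      (q' : ℤ) ≤ (A v * q' + B v * k') - (A u * q' + B u * k') ∧
      (A v * q' + B v * k') - (A u * q' + B u * k') ≤ (k' : ℤ) - q' := by
    intro u v huv hlt
    obtain ⟨l1, l2⟩ := g3.lt huv hlt
    have a1 := abs_le.mp (hAb u)
    have a2 := abs_le.mp (hAb v)
    have b1 := abs_le.mp (hBb u)
    have b2 := abs_le.mp (hBb v)
    have m1 := hg'' (A v - A u - 1) (B v - B u) (g v - g u - q)
      (abs_le.mpr ⟨by linarith [a1.1, a1.2, a2.1, a2.2], by linarith [a1.1, a1.2, a2.1, a2.2]⟩)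
      (abs_le.mpr ⟨by linarith [b1.1, b1.2, b2.1, b2.2], by linarith [b1.1, b1.2, b2.1, b2.2]⟩)
      (by rw [hAB u, hAB v]; ring) (by linarith)
    have m2 := hg'' (A u - A v - 1) (B u - B v + 1) ((k : ℤ) - q - (g v - g u))
      (abs_le.mpr ⟨by linarith [a1.1, a1.2, a2.1, a2.2], by linarith [a1.1, a1.2, a2.1, a2.2]⟩)
      (abs_le.mpr ⟨by linarith [b1.1, b1.2, b2.1, b2.2], by linarith [b1.1, b1.2, b2.1, b2.2]⟩)
      (by rw [hAB u, hAB v]; ring) (by linarith)
    constructor <;> nlinarith [m1, m2]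
  have hlt' : ∀ u v, G.Adj u v → g u < g v →
      A u * q' + B u * k' < A v * q' + B v * k' := by
    intro u v huv hlt
    have := (key u v huv hlt).1
    have hq0 : (0 : ℤ) < q' := by exact_mod_cast hq'
    linarith
  refine ⟨fun v => A v * q' + B v * k', ⟨?_, ?_⟩, ?_⟩
  · intro v
    have a2 := abs_le.mp (hAb v)
    have b2 := abs_le.mp (hBb v)
    constructor
    · exact hg'' (A v) (B v) (g v) (by linarith [hAb v]) (by linarith [hBb v]) (hAB v) (g3.1 v).1
    · have m := hg'' (-A v) (1 - B v) ((k : ℤ) - g v)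
        (by rw [abs_neg]; linarith [hAb v])
        (abs_le.mpr ⟨by linarith [b2.1, b2.2], by linarith [b2.1, b2.2]⟩)
        (by rw [hAB v]; ring) (by linarith [(g3.1 v).2])
      have hne : -A v * q' + (1 - B v) * k' ≠ 0 := by
        intro h0
        obtain ⟨z1, z2⟩ := h2 _ _ (by rw [abs_neg]; linarith [hAb v])
          (abs_le.mpr ⟨by linarith [b2.1, b2.2], by linarith [b2.1, b2.2]⟩) h0
        have e1 : A v = 0 := by linarith
        have e2 : B v = 1 := by linarith
        have := hAB v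
        rw [e1, e2] at this
        have := (g3.1 v).2
        linarith
      have hpos : 0 < -A v * q' + (1 - B v) * k' := lt_of_le_of_ne m (Ne.symm hne)
      dsimp only
      linarith
  · intro u v huv
    dsimp only
    rcases lt_trichotomy (g u) (g v) with h | h | h
    · obtain ⟨l1, l2⟩ := key u v huv h
      have l3 := hlt' u v huv h
      rw [abs_of_neg (by linarith)]
      constructor <;> linarith
    · exact absurd h (g3.ne hq huv)
    · obtain ⟨l1, l2⟩ := key v u huv.symm h
      have l3 := hlt' v u huv.symm h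
      rw [abs_of_pos (by linarith)]
      constructor <;> linarith
  · refine g2.trans ?_
    intro u v huv
    constructor
    · exact hlt' u v huv
    · intro h
      rcases lt_trichotomy (g u) (g v) with h' | h' | h'
      · exact h'
      · exact absurd h' (g3.ne hq huv)
      · have := hlt' v u huv.symm h'
        dsimp only at h
        linarith

end X193.CMT
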