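import Pool.Agent.X193.CMT.Base

namespace X193.CMT

open Relation

section mix

variable {V : Type}

/-- the vertex of `G` under a vertex of the graph with a twin of `v` added -/
def tw (v : V) : Option V → V
  | none => v
  | some u => u

theorem mixing_transfer [Fintype V] {G : SimpleGraph V} {k q k' q' : ℕ} (hq : 0 < q)
    (hq' : 0 < q') {N : ℤ} (hN : 2 * (Fintype.card V : ℤ) + 3 ≤ N) (h1 : NC N k q)
    (h2 : NC N k' q') (hA : Agree N k q k' q') (hA' : Agree N k' q' k q)
    (hM : Mixing G k' q') : Mixing G k q := by
  classical
  intro f g hf hg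
  have hN1 : 2 * (Fintype.card V : ℤ) + 1 ≤ N := by linarith
  have hN2 : (Fintype.card V : ℤ) ≤ N := by
    have : (0 : ℤ) ≤ Fintype.card V := by positivity
    linarith
  have hN3 : 2 * (Fintype.card (Option V) : ℤ) + 1 ≤ N := by
    rw [Fintype.card_option]
    push_cast
    linarith
  obtain ⟨f', f1, f2⟩ := transfer hq hq' hN1 h1 h2 hA hf
  obtain ⟨g', g1, g2⟩ := transfer hq hq' hN1 h1 h2 hA hg
  have key : ∀ x', ReflTransGen (Move G k' q') f' x' → ∀ x, IsCol G k q x → SameT G x x' →
      ReflTransGen (Move G k q) f x := by
    intro x' hx'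
    induction hx' with
    | refl =>
      intro x hx hxT
      exact sameT_conn hq hf hx (f2.trans hxT.symm) hN2 h1
    | @tail x' y' _ hxy ih =>
      intro y hy hyT
      obtain ⟨c1, c2, v, hv⟩ := hxy
      -- the colouring of the graph with a twin of `v`
      have hcol : IsCol (G.comap (tw v)) k' q'
          (fun o : Option V => match o with
            | none => y' v
            | some u => x' u) := by
        refine ⟨?_, ?_⟩
        · intro o
          cases o with
          | none => exact c2.1 v
          | some u => exact c1.1 u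
        · intro a b hab
          rw [SimpleGraph.comap_adj] at hab
          cases a with
          | none =>
            cases b with
            | none => exact absurd hab (G.irrefl)
            | some u =>
              have hab' : G.Adj v u := hab
              have hne : u ≠ v := hab'.ne'
              dsimp only
              rw [hv u hne]
              exact c2.2 v u hab'
          | some w =>
            cases b with
            | none =>
              have hab' : G.Adj w v := hab
              have hne : w ≠ v := hab'.ne
              dsimp only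
              rw [hv w hne]
              exact c2.2 w v hab'
            | some u => exact c1.2 w u hab
      obtain ⟨h, hh1, hh2⟩ := transfer hq' hq hN3 h2 h1 hA' hcol
      let x1 : V → ℤ := fun u => h (some u)
      let y1 : V → ℤ := fun u => if u = v then h none else h (some u)
      have hx1 : IsCol G k q x1 := by
        refine ⟨fun u => hh1.1 (some u), ?_⟩
        intro a b hab
        exact hh1.2 (some a) (some b) hab
      have hy1 : IsCol G k q y1 := by
        refine ⟨?_, ?_⟩
        · intro u
          by_cases hu : u = v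
          · have : y1 u = h none := if_pos hu
            rw [this]
            exact hh1.1 none
          · have : y1 u = h (some u) := if_neg hu
            rw [this]
            exact hh1.1 (some u)
        · intro a b hab
          by_cases ha : a = v
          · have hb : b ≠ v := fun h' => hab.ne (ha.trans h'.symm)
            have e1 : y1 a = h none := if_pos ha
            have e2 : y1 b = h (some b) := if_neg hb
            rw [e1, e2]
            refine hh1.2 none (some b) ?_
            rw [SimpleGraph.comap_adj]
            change G.Adj v b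
            rw [← ha]
            exact hab
          · by_cases hb : b = v
            · have e1 : y1 a = h (some a) := if_neg ha
              have e2 : y1 b = h none := if_pos hb
              rw [e1, e2]
              refine hh1.2 (some a) none ?_
              rw [SimpleGraph.comap_adj]
              change G.Adj a v
              rw [← hb]
              exact hab
            · have e1 : y1 a = h (some a) := if_neg ha
              have e2 : y1 b = h (some b) := if_neg hb
              rw [e1, e2]
              exact hh1.2 (some a) (some b) hab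
      have hx1T : SameT G x1 x' := by
        intro a b hab
        exact (hh2 (some a) (some b) hab).symm
      have hy1T : SameT G y1 y' := by
        intro a b hab
        by_cases ha : a = v
        · have hb : b ≠ v := fun h' => hab.ne (ha.trans h'.symm)
          have e1 : y1 a = h none := if_pos ha
          have e2 : y1 b = h (some b) := if_neg hb
          have hadj : (G.comap (tw v)).Adj none (some b) := by
            rw [SimpleGraph.comap_adj]
            change G.Adj v b
            rw [← ha]
            exact hab
          have := hh2 none (some b) hadj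
          dsimp only at this
          rw [e1, e2, ← this, ha, hv b hb]
        · by_cases hb : b = v
          · have e1 : y1 a = h (some a) := if_neg ha
            have e2 : y1 b = h none := if_pos hb
            have hadj : (G.comap (tw v)).Adj (some a) none := by
              rw [SimpleGraph.comap_adj]
              change G.Adj a v
              rw [← hb]
              exact hab
            have := hh2 (some a) none hadj
            dsimp only at this
            rw [e1, e2, ← this, hb, hv a ha]
          · have e1 : y1 a = h (some a) := if_neg ha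
            have e2 : y1 b = h (some b) := if_neg hb
            have := hh2 (some a) (some b) hab
            dsimp only at this
            rw [e1, e2, ← this, hv a ha, hv b hb]
      have s1 := ih x1 hx1 hx1T
      have s2 : Move G k q x1 y1 := by
        refine ⟨hx1, hy1, v, ?_⟩
        intro u hu
        exact (if_neg hu).symm
      have s3 := sameT_conn hq hy1 hy (hy1T.trans hyT.symm) hN2 h1
      exact (s1.tail s2).trans s3
  exact key g' (hM f' g' f1 g1) g hg g2

/-- Mixing when `k / q` is large. -/
theorem mixing_of_large [Fintype V] (G : SimpleGraph V) {k q : ℕ} (hq : 0 < q)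
    (hk : 2 * q * (3 * Fintype.card V + 1) ≤ k) : Mixing G k q := by
  classical
  intro f g hf hg
  set n := Fintype.card V with hn
  set m := 3 * n + 1 with hm
  let Forb : ℤ → ℕ → Prop := fun y j =>
    |2 * (q : ℤ) * j - y| < q ∨ (k : ℤ) - q < |2 * (q : ℤ) * j - y|
  have hq0 : (0 : ℤ) < q := by exact_mod_cast hq
  have hk0 : 2 * (q : ℤ) * m ≤ k := by exact_mod_cast hk
  -- each value forbids at most one candidate
  have huniq : ∀ y : ℤ, 0 ≤ y → y < k → ∀ i j : ℕ, i < m → j < m → Forb y i → Forb y j →
      ¬ i < j := by
    intro y hy0 hyk i j hi hj hFi hFj hij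
    have e1 : 2 * (q : ℤ) * i + 2 * q ≤ 2 * (q : ℤ) * j := by
      have : (i : ℤ) + 1 ≤ j := by exact_mod_cast hij
      nlinarith
    have e2 : 2 * (q : ℤ) * j + 2 * q ≤ k := by
      have : (j : ℤ) + 1 ≤ m := by exact_mod_cast hj
      nlinarith
    have e3 : 0 ≤ 2 * (q : ℤ) * i := by positivity
    rcases hFi with h1 | h1 <;> rcases hFj with h2 | h2
    · rw [abs_lt] at h1 h2
      linarith [h1.1, h1.2, h2.1, h2.2]
    · rw [abs_lt] at h1
      rw [lt_abs] at h2
      rcases h2 with h2 | h2 <;> linarith [h1.1, h1.2]
    · rw [abs_lt] at h2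
      rw [lt_abs] at h1
      rcases h1 with h1 | h1 <;> linarith [h2.1, h2.2]
    · rw [lt_abs] at h1 h2
      rcases h1 with h1 | h1 <;> rcases h2 with h2 | h2 <;> linarith
  have hcard1 : ∀ y : ℤ, 0 ≤ y → y < k → ((Finset.range m).filter (Forb y)).card ≤ 1 := by
    intro y hy0 hyk
    rw [Finset.card_le_one]
    intro i hi j hj
    rw [Finset.mem_filter, Finset.mem_range] at hi hj
    rcases lt_trichotomy i j with h | h | h
    · exact absurd h (huniq y hy0 hyk i j hi.1 hj.1 hi.2 hj.2)
    · exact h
    · exact absurd h (huniq y hy0 hyk j i hj.1 hi.1 hj.2 hi.2)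
  let Bad : Finset ℕ := (Finset.univ.biUnion fun u : V => (Finset.range m).filter (Forb (f u))) ∪
    (Finset.univ.biUnion fun u : V => (Finset.range m).filter (Forb (g u)))
  have hBad : Bad.card ≤ 2 * n := by
    refine (Finset.card_union_le _ _).trans ?_
    have b1 : (Finset.univ.biUnion fun u : V => (Finset.range m).filter (Forb (f u))).card ≤ n := by
      refine Finset.card_biUnion_le.trans ?_
      refine (Finset.sum_le_card_nsmul _ _ 1 fun u _ => hcard1 _ (hf.1 u).1 (hf.1 u).2).trans ?_
      simp [hn]
    have b2 : (Finset.univ.biUnion fun u : V => (Finset.range m).filter (Forb (g u))).card ≤ n := by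
      refine Finset.card_biUnion_le.trans ?_
      refine (Finset.sum_le_card_nsmul _ _ 1 fun u _ => hcard1 _ (hg.1 u).1 (hg.1 u).2).trans ?_
      simp [hn]
    omega
  have hcard : Fintype.card V ≤ (Finset.range m \ Bad).card := by
    have := Finset.le_card_sdiff Bad (Finset.range m)
    rw [Finset.card_range] at this
    omega
  obtain ⟨e⟩ := Function.Embedding.nonempty_of_card_le
    (α := V) (β := {x // x ∈ Finset.range m \ Bad}) (by
      rw [Fintype.card_coe]
      exact hcard)
  let h : V → ℤ := fun v => 2 * (q : ℤ) * ((e v).1 : ℕ)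
  have hem : ∀ v, (e v).1 < m := fun v =>
    Finset.mem_range.mp (Finset.mem_sdiff.mp (e v).2).1
  have heB : ∀ v, (e v).1 ∉ Bad := fun v => (Finset.mem_sdiff.mp (e v).2).2
  have hef : ∀ u v, ¬ Forb (f u) (e v).1 := by
    intro u v hF
    apply heB v
    refine Finset.mem_union_left _ (Finset.mem_biUnion.mpr ⟨u, Finset.mem_univ u, ?_⟩)
    exact Finset.mem_filter.mpr ⟨Finset.mem_range.mpr (hem v), hF⟩
  have heg : ∀ u v, ¬ Forb (g u) (e v).1 := by
    intro u v hF
    apply heB v
    refine Finset.mem_union_right _ (Finset.mem_biUnion.mpr ⟨u, Finset.mem_univ u, ?_⟩)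
    exact Finset.mem_filter.mpr ⟨Finset.mem_range.mpr (hem v), hF⟩
  have hh0 : ∀ v, 0 ≤ h v ∧ h v + 2 * q ≤ k := by
    intro v
    have h1 : ((e v).1 : ℤ) + 1 ≤ m := by exact_mod_cast hem v
    have h2 : (0 : ℤ) ≤ ((e v).1 : ℤ) := by positivity
    constructor
    · change 0 ≤ 2 * (q : ℤ) * ((e v).1 : ℕ)
      positivity
    · change 2 * (q : ℤ) * ((e v).1 : ℕ) + 2 * q ≤ k
      nlinarith
  have hhh : ∀ u v, u ≠ v → (q : ℤ) ≤ |h u - h v| ∧ |h u - h v| ≤ (k : ℤ) - q := by
    have haux : ∀ u v, (e u).1 < (e v).1 →
        (q : ℤ) ≤ h v - h u ∧ h v - h u ≤ (k : ℤ) - q := by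
      intro u v huv
      have h1 : ((e u).1 : ℤ) + 1 ≤ (e v).1 := by exact_mod_cast huv
      have h2 : h u + 2 * q ≤ h v := by
        change 2 * (q : ℤ) * ((e u).1 : ℕ) + 2 * q ≤ 2 * (q : ℤ) * ((e v).1 : ℕ)
        nlinarith
      constructor
      · linarith
      · linarith [(hh0 u).1, (hh0 v).2]
    intro u v huv
    have hne : (e u).1 ≠ (e v).1 := fun h' => huv (e.injective (Subtype.ext h'))
    rcases Nat.lt_or_gt_of_ne hne with h' | h'
    · obtain ⟨l1, l2⟩ := haux u v h'
      rw [abs_sub_comm, abs_of_pos (by linarith)]
      exact ⟨l1, l2⟩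
    · obtain ⟨l1, l2⟩ := haux v u h'
      rw [abs_of_pos (by linarith)]
      exact ⟨l1, l2⟩
  -- connecting a colouring to `h`
  have hconn : ∀ f : V → ℤ, IsCol G k q f → (∀ u v, ¬ Forb (f u) (e v).1) →
      ReflTransGen (Move G k q) f h := by
    intro f hf hef
    have hmix : ∀ T : Finset V, IsCol G k q (fun v => if v ∈ T then h v else f v) := by
      intro T
      refine ⟨?_, ?_⟩
      · intro v
        dsimp only
        by_cases hv : v ∈ T
        · rw [if_pos hv]
          have := hh0 v
          constructor <;> linarith [this.1, this.2]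
        · rw [if_neg hv]
          exact hf.1 v
      · intro a b hab
        dsimp only
        by_cases ha : a ∈ T <;> by_cases hb : b ∈ T
        · rw [if_pos ha, if_pos hb]
          exact hhh a b hab.ne
        · rw [if_pos ha, if_neg hb]
          have := hef b a
          rw [not_or, not_lt, not_lt] at this
          exact this
        · rw [if_neg ha, if_pos hb, abs_sub_comm]
          have := hef a b
          rw [not_or, not_lt, not_lt] at this
          exact this
        · rw [if_neg ha, if_neg hb]
          exact hf.2 a b hab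
    have hT : ∀ T : Finset V, ReflTransGen (Move G k q) f (fun v => if v ∈ T then h v else f v) := by
      intro T
      induction T using Finset.induction_on with
      | empty =>
        have : (fun v => if v ∈ (∅ : Finset V) then h v else f v) = f := by
          funext v
          simp
        rw [this]
      | insert a T ha ih =>
        refine ih.tail ⟨hmix T, hmix _, a, ?_⟩
        intro u hu
        dsimp only
        have : u ∈ insert a T ↔ u ∈ T := by
          rw [Finset.mem_insert]
          exact ⟨fun h => h.resolve_left hu, Or.inr⟩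
        simp only [this]
    have := hT Finset.univ
    have e1 : (fun v => if v ∈ (Finset.univ : Finset V) then h v else f v) = h := by
      funext v
      simp
    rw [e1] at this
    exact this
  exact (hconn f hf hef).trans (conn_symm (hconn g hg heg))

end mix

section main

variable {V : Type} [Fintype V]

/-- The rationals `l` (as real numbers) such that `G` is `(k, q)`-mixing for every pair of positive
integers with `k / q ≥ l`. -/
def Good {V : Type} (G : SimpleGraph V) : Set ℝ :=
  {x | ∃ l : ℚ, (l : ℝ) = x ∧ ∀ k q : ℕ, 0 < k → 0 < q → l ≤ (k : ℚ) / q → Mixing G k q}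

theorem main_thm (G : SimpleGraph V) :
    (∃ a b : ℕ, 0 < b ∧ b ≤ 2 * Fintype.card V + 3 ∧ a ≤ 2 * Fintype.card V + 3 ∧
      IsGLB (Good G) ((a : ℝ) / b)) ∨ (∀ k q : ℕ, 0 < k → 0 < q → Mixing G k q) := by
  classical
  by_cases hall : ∀ k q : ℕ, 0 < k → 0 < q → Mixing G k q
  · exact Or.inr hall
  left
  push Not at hall
  set n := Fintype.card V with hn
  set N : ℤ := 2 * (n : ℤ) + 3 with hN
  let NM : Set ℝ := {x | ∃ k q : ℕ, 0 < k ∧ 0 < q ∧ x = (k : ℝ) / q ∧ ¬ Mixing G k q}
  have hNMne : NM.Nonempty := by
    obtain ⟨k, q, hk, hq, h⟩ := hall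
    exact ⟨_, k, q, hk, hq, rfl, h⟩
  have hbdd : BddAbove NM := by
    refine ⟨2 * (3 * (n : ℝ) + 1), ?_⟩
    rintro x ⟨k, q, hk, hq, rfl, h⟩
    by_contra hcon
    push Not at hcon
    apply h
    apply mixing_of_large G hq
    have hq0 : (0 : ℝ) < q := by exact_mod_cast hq
    rw [lt_div_iff₀ hq0] at hcon
    have : (2 * q * (3 * n + 1) : ℕ) ≤ (k : ℝ) := by
      push_cast
      linarith
    exact_mod_cast this
  set M := sSup NM with hM
  have hMpos : 0 < M := by
    obtain ⟨x, hx⟩ := hNMne
    have h1 := le_csSup hbdd hx
    obtain ⟨k, q, hk, hq, rfl, _⟩ := hx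
    have : (0 : ℝ) < (k : ℝ) / q := by positivity
    linarith
  -- the critical values
  let Crit : Set ℝ := (fun p : ℤ × ℤ => -(p.1 : ℝ) / p.2) '' (Set.Icc (-N) N ×ˢ Set.Icc (-N) N)
  have hCfin : Crit.Finite := ((Set.finite_Icc _ _).prod (Set.finite_Icc _ _)).image _
  have hmemC : ∀ (a b : ℤ) (x : ℝ), |a| ≤ N → |b| ≤ N → b ≠ 0 → (a : ℝ) + b * x = 0 → x ∈ Crit := by
    intro a b x ha hb hb0 h
    refine ⟨(a, b), ⟨abs_le.mp ha, abs_le.mp hb⟩, ?_⟩
    dsimp only
    have hb1 : (b : ℝ) ≠ 0 := by exact_mod_cast hb0
    rw [div_eq_iff hb1]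
    linarith
  have hMC : M ∈ Crit := by
    by_contra hMC
    have hopen : IsOpen Critᶜ := hCfin.isClosed.isOpen_compl
    obtain ⟨ε, hε, hball⟩ := Metric.isOpen_iff.mp hopen M hMC
    obtain ⟨x, hx, hxM⟩ := exists_lt_of_lt_csSup hNMne (show M - ε < sSup NM by rw [← hM]; linarith)
    have hxM' : x ≤ M := le_csSup hbdd hx
    obtain ⟨k, q, hk, hq, rfl, hnm⟩ := hx
    obtain ⟨r, hr1, hr2⟩ := exists_rat_btwn (show M < M + ε by linarith)
    have hr0 : (0 : ℚ) < r := by
      have : (0 : ℝ) < r := by linarith
      exact_mod_cast this
    have hrnum : 0 < r.num := Rat.num_pos.mpr hr0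
    set k' := r.num.toNat with hk'
    set q' := r.den with hq'
    have hk'0 : 0 < k' := by omega
    have hq'0 : 0 < q' := r.den_pos
    have hk'z : (k' : ℤ) = r.num := Int.toNat_of_nonneg hrnum.le
    have hrr : (r : ℝ) = (k' : ℝ) / q' := by
      have h1 : (k' : ℝ) = (r.num : ℝ) := by exact_mod_cast congrArg (fun z : ℤ => (z : ℝ)) hk'z
      rw [h1]
      exact_mod_cast (Rat.num_div_den r).symm
    have hmix' : Mixing G k' q' := by
      by_contra hcon
      have : (r : ℝ) ∈ NM := ⟨k', q', hk'0, hq'0, hrr, hcon⟩
      have := le_csSup hbdd this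
      linarith
    have hq0 : (0 : ℝ) < q := by exact_mod_cast hq
    have hq'0r : (0 : ℝ) < q' := by exact_mod_cast hq'0
    -- every point strictly between is not critical
    have hnc : ∀ y : ℝ, M - ε < y → y < M + ε → y ∉ Crit := by
      intro y h1 h2
      apply hball
      rw [Metric.mem_ball, Real.dist_eq, abs_lt]
      constructor <;> linarith
    set x := (k : ℝ) / q with hxdef
    have hkx : (k : ℝ) = x * q := by rw [hxdef, div_mul_cancel₀ _ hq0.ne']
    have hk'r : (k' : ℝ) = r * q' := by rw [hrr, div_mul_cancel₀ _ hq'0r.ne']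
    have hform : ∀ a b : ℤ, ((a * q + b * k : ℤ) : ℝ) = q * ((a : ℝ) + b * x) := by
      intro a b
      push_cast
      rw [hkx]
      ring
    have hform' : ∀ a b : ℤ, ((a * q' + b * k' : ℤ) : ℝ) = q' * ((a : ℝ) + b * r) := by
      intro a b
      push_cast
      rw [hk'r]
      ring
    have hNCx : ∀ y : ℝ, M - ε < y → y < M + ε → ∀ a b : ℤ, |a| ≤ N → |b| ≤ N →
        (a : ℝ) + b * y = 0 → a = 0 ∧ b = 0 := by
      intro y h1 h2 a b ha hb h
      by_cases hb0 : b = 0
      · refine ⟨?_, hb0⟩
        rw [hb0] at h
        simpa using h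
      · exact absurd (hmemC a b y ha hb hb0 h) (hnc y h1 h2)
    have hnc1 : NC N k q := by
      intro a b ha hb h
      have h0 : ((a * q + b * k : ℤ) : ℝ) = 0 := by exact_mod_cast h
      rw [hform] at h0
      rcases mul_eq_zero.mp h0 with h0 | h0
      · exact absurd h0 hq0.ne'
      · exact hNCx x hxM (by linarith) a b ha hb h0
    have hnc2 : NC N k' q' := by
      intro a b ha hb h
      have h0 : ((a * q' + b * k' : ℤ) : ℝ) = 0 := by exact_mod_cast h
      rw [hform'] at h0
      rcases mul_eq_zero.mp h0 with h0 | h0
      · exact absurd h0 hq'0r.ne'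
      · exact hNCx r (by linarith) hr2 a b ha hb h0
    -- signs agree
    have hsign : ∀ y z : ℝ, M - ε < y → y < M + ε → M - ε < z → z < M + ε →
        ∀ a b : ℤ, |a| ≤ N → |b| ≤ N → 0 ≤ (a : ℝ) + b * y → 0 ≤ (a : ℝ) + b * z := by
      intro y z hy1 hy2 hz1 hz2 a b ha hb h
      by_contra hcon
      push Not at hcon
      by_cases hb0 : b = 0
      · rw [hb0] at h hcon
        simp only [Int.cast_zero, zero_mul, add_zero] at h hcon
        linarith
      · have hb1 : (b : ℝ) ≠ 0 := by exact_mod_cast hb0
        set w : ℝ := -(a : ℝ) / b with hw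
        have hwz : (a : ℝ) + b * w = 0 := by
          rw [hw]
          field_simp
          ring
        have hwC := hmemC a b w ha hb hb0 hwz
        have e1 : (b : ℝ) * (y - w) ≥ 0 := by nlinarith
        have e2 : (b : ℝ) * (z - w) < 0 := by nlinarith
        rcases lt_or_gt_of_ne hb1 with hbn | hbp
        · have h3 : y ≤ w := by
            by_contra h'
            push Not at h'
            nlinarith
          have h4 : w < z := by
            by_contra h'
            push Not at h'
            nlinarith
          exact hnc w (by linarith) (by linarith) hwC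
        · have h3 : w ≤ y := by
            by_contra h'
            push Not at h'
            nlinarith
          have h4 : z < w := by
            by_contra h'
            push Not at h'
            nlinarith
          exact hnc w (by linarith) (by linarith) hwC
    have hA1 : Agree N k q k' q' := by
      intro a b ha hb h
      have h0 : (0 : ℝ) ≤ ((a * q + b * k : ℤ) : ℝ) := by exact_mod_cast h
      rw [hform] at h0
      have h1 : 0 ≤ (a : ℝ) + b * x := nonneg_of_mul_nonneg_right h0 hq0
      have h2 := hsign x r hxM (by linarith) (by linarith) hr2 a b ha hb h1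
      have h3 : (0 : ℝ) ≤ ((a * q' + b * k' : ℤ) : ℝ) := by
        rw [hform']
        positivity
      exact_mod_cast h3
    have hA2 : Agree N k' q' k q := by
      intro a b ha hb h
      have h0 : (0 : ℝ) ≤ ((a * q' + b * k' : ℤ) : ℝ) := by exact_mod_cast h
      rw [hform'] at h0
      have h1 : 0 ≤ (a : ℝ) + b * r := nonneg_of_mul_nonneg_right h0 hq'0r
      have h2 := hsign r x (by linarith) hr2 hxM (by linarith) a b ha hb h1
      have h3 : (0 : ℝ) ≤ ((a * q + b * k : ℤ) : ℝ) := by
        rw [hform]
        positivity
      exact_mod_cast h3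
    exact hnm (mixing_transfer hq hq'0 (le_of_eq hN.symm) hnc1 hnc2 hA1 hA2 hmix')
  -- the supremum is the infimum of the good values
  have hglb : IsGLB (Good G) M := by
    constructor
    · rintro y ⟨l, rfl, hl⟩
      apply csSup_le hNMne
      rintro x ⟨k, q, hk, hq, rfl, hnm⟩
      by_contra hcon
      push Not at hcon
      apply hnm
      apply hl k q hk hq
      have : (l : ℝ) ≤ (((k : ℚ) / q : ℚ) : ℝ) := by
        push_cast
        exact hcon.le
      exact_mod_cast this
    · intro y hy
      by_contra hcon
      push Not at hcon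
      obtain ⟨l, hl1, hl2⟩ := exists_rat_btwn hcon
      have hlG : (l : ℝ) ∈ Good G := by
        refine ⟨l, rfl, ?_⟩
        intro k q hk hq hle
        by_contra hnm
        have h1 : ((k : ℝ) / q) ∈ NM := ⟨k, q, hk, hq, rfl, hnm⟩
        have h2 := le_csSup hbdd h1
        have h3 : (l : ℝ) ≤ (((k : ℚ) / q : ℚ) : ℝ) := by exact_mod_cast hle
        push_cast at h3
        linarith
      have := hy hlG
      linarith
  obtain ⟨⟨a, b⟩, ⟨⟨ha1, ha2⟩, ⟨hb1, hb2⟩⟩, hab⟩ := hMC
  dsimp only at hab ha1 ha2 hb1 hb2
  have hb0 : b ≠ 0 := by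
    intro h
    rw [h] at hab
    simp only [Int.cast_zero, div_zero] at hab
    linarith
  refine ⟨a.natAbs, b.natAbs, by omega, by omega, by omega, ?_⟩
  have e : ((a.natAbs : ℕ) : ℝ) / (b.natAbs : ℕ) = M := by
    have h1 : ((a.natAbs : ℕ) : ℝ) = |(a : ℝ)| := by
      rw [Nat.cast_natAbs, Int.cast_abs]
    have h2 : ((b.natAbs : ℕ) : ℝ) = |(b : ℝ)| := by
      rw [Nat.cast_natAbs, Int.cast_abs]
    rw [h1, h2, ← abs_div]
    have h3 : |(a : ℝ) / b| = |-(a : ℝ) / b| := by
      rw [neg_div, abs_neg]
    rw [h3, hab, abs_of_pos hMpos]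
  rw [e]
  exact hglb

end main

end X193.CMT
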